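import Pool.Agent.Lightning.Main

/-!
# The Lightning Model on `ℤ²`: almost surely at most two infinite strong clusters

The potentials `U a`, `a ∈ ℤ²`, are independent and uniform on `[0, 1]` (`potLaw`); the directed
edge `(a, b)` between nearest neighbours is open if `U b < U a + ε` (`Opn`); `a → b` if there is a
path of distinct vertices and open edges (`Conn`); `strongCluster ε U a` is the set of all `b` with
`a → b` and `b → a`; `numInf ε U` is the number `N` of infinite strong clusters.

The proof is a Burton-Keane argument. The potentials in a large box whose outer boundary is flat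
near the corners can be changed so that all sites of the outer boundary become strongly connected
inside of the box (a *hub*); this never destroys connections between sites outside of the box.
-/

namespace Pool.Agent.Results.MP_a496a1_pr.FinitelyManyClusters

open Pool.Agent.Lightning MeasureTheory

lemma reach_le {U : Site → unitInterval} {a b : Site} (h : Reach 0 U a b) : a = b ∨ U b < U a := by
  induction h with
  | refl => exact Or.inl rfl
  | @tail b c _ hbc ih =>
    have h1 : U c < U b := by
      have := hbc.2
      rw [add_zero] at this
      exact this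
    rcases ih with rfl | ih
    · exact Or.inr h1
    · exact Or.inr (h1.trans ih)

/-- More than two infinite strong clusters. -/
lemma three_of_numInf {ε : ℝ} {U : Site → unitInterval} (h : ¬ numInf ε U ≤ 2) : Three' ε U := by
  rw [not_le] at h
  have h3 : (3 : ℕ∞) ≤ numInf ε U := by
    have h4 : ((2 : ℕ) : ℕ∞) + 1 ≤ numInf ε U := Order.add_one_le_of_lt (by exact_mod_cast h)
    have h5 : ((2 : ℕ) : ℕ∞) + 1 = 3 := by norm_num
    rwa [h5] at h4
  obtain ⟨S, hS, hcard⟩ := Set.exists_subset_encard_eq h3
  obtain ⟨x, y, z, hxy, hxz, hyz, rfl⟩ := Set.encard_eq_three.1 hcard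
  obtain ⟨hx, a, rfl⟩ := hS (by simp : x ∈ ({x, y, z} : Set (Set Site)))
  obtain ⟨hy, b, rfl⟩ := hS (by simp : y ∈ ({_, y, z} : Set (Set Site)))
  obtain ⟨hz, c, rfl⟩ := hS (by simp : z ∈ ({_, _, z} : Set (Set Site)))
  have key : ∀ d, strongCluster ε U d = {b | Strong ε U d b} := fun d => by
    ext b
    exact mem_strongCluster
  refine ⟨![a, b, c], ?_, ?_⟩
  · intro i
    fin_cases i
    · rw [key] at hx; exact hx
    · rw [key] at hy; exact hy
    · rw [key] at hz; exact hz
  · intro i j hij hst
    have h6 := strongCluster_eq hst
    fin_cases i <;> fin_cases j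
    · exact hij rfl
    · exact hxy h6
    · exact hxz h6
    · exact hxy h6.symm
    · exact hij rfl
    · exact hyz h6
    · exact hxz h6.symm
    · exact hyz h6.symm
    · exact hij rfl

/-- **Theorem.** For every `ε ∈ [0, 1]` the probability that the Lightning Model on `ℤ²` has
infinitely many infinite strong clusters is `0`; in fact almost surely there are at most two
infinite strong clusters. -/
theorem result (ε : ℝ) (hε : ε ∈ Set.Icc (0 : ℝ) 1) :
    potLaw {U | numInf ε U = ⊤} = 0 ∧ ∀ᵐ U ∂potLaw, numInf ε U ≤ 2 := by
  have h2 : ∀ᵐ U ∂potLaw, numInf ε U ≤ 2 := by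
    rcases hε.1.eq_or_lt with h0 | h0
    · subst h0
      refine Filter.Eventually.of_forall fun U => ?_
      have : {C : Set Site | C.Infinite ∧ ∃ a, C = strongCluster 0 U a} = ∅ := by
        ext C
        simp only [Set.mem_empty_iff_false, iff_false]
        rintro ⟨hC, a, rfl⟩
        apply hC
        refine (Set.finite_singleton a).subset ?_
        intro b hb
        obtain ⟨h1, h2⟩ := mem_strongCluster.1 hb
        rcases reach_le h1 with h | h
        · exact h.symm
        · rcases reach_le h2 with h' | h'
          · exact h'
          · exact absurd h (not_lt.2 h'.le)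
      unfold numInf
      rw [this, Set.encard_empty]
      exact bot_le
    · rw [ae_iff]
      exact measure_mono_null (fun U hU => three_of_numInf hU) (ae_not_three h0)
  refine ⟨?_, h2⟩
  rw [ae_iff] at h2
  refine measure_mono_null (fun U hU => ?_) h2
  change ¬ numInf ε U ≤ 2
  rw [show numInf ε U = ⊤ from hU]
  simp

end Pool.Agent.Results.MP_a496a1_pr.FinitelyManyClusters
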